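import Pool.Agent.TH289.L.P3

set_option autoImplicit false

open scoped Manifold ContDiff Topology
open Set Filter

namespace Pool.Agent.Results.MP_0a0487_an.FiniteFibreFactorCovered

open Pool.Agent.H721R2 Pool.Agent.H789R2.AN Pool.Agent.TH289 Pool.Agent.TH289.K Pool.Agent.TH289.L

/-- **Universal covers of factors of Anosov diffeomorphisms with global product structure.**
Let `f` be a `C¹` Anosov diffeomorphism of a closed connected manifold `M` with global product
structure (`GPS`: each stable path and each unstable path with the same initial point span a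
rectangle; for instance a hyperbolic automorphism of an infranilmanifold).  Let `g` be a `C¹` Anosov
diffeomorphism of a closed connected manifold `M'` with `dim M' ≤ dim M`, and let `h : M → M'` be
continuous with `h ∘ f = g ∘ h` such that, for ONE periodic point `p` of `f`, only finitely many
points of the fibre `h⁻¹(h p)` are forward asymptotic to `p`, or only finitely many are backward
asymptotic to `p` (for instance the fibre is finite).  Then `M'` is covered by Euclidean space;
indeed `h` is a finite covering map of `M` onto `M'`, and `g` has global product structure. -/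
theorem result (E : Type*) [NormedAddCommGroup E] [NormedSpace ℝ E] [FiniteDimensional ℝ E]
    (M : Type*) [TopologicalSpace M] [T2Space M] [CompactSpace M] [ConnectedSpace M]
    [ChartedSpace E M] [IsManifold 𝓘(ℝ, E) ∞ M] (f : Diffeomorph 𝓘(ℝ, E) 𝓘(ℝ, E) M M 1)
    (Es Eu : ∀ x : M, Submodule ℝ (TangentSpace 𝓘(ℝ, E) x)) (hf : IsAnosov f Es Eu)
    (hG : GPS f.toHomeomorph)
    (E' : Type*) [NormedAddCommGroup E'] [NormedSpace ℝ E'] [FiniteDimensional ℝ E']
    (M' : Type*) [TopologicalSpace M'] [T2Space M'] [CompactSpace M'] [ConnectedSpace M']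
    [ChartedSpace E' M'] [IsManifold 𝓘(ℝ, E') ∞ M'] (g : Diffeomorph 𝓘(ℝ, E') 𝓘(ℝ, E') M' M' 1)
    (Es' Eu' : ∀ x : M', Submodule ℝ (TangentSpace 𝓘(ℝ, E') x)) (hg : IsAnosov g Es' Eu')
    (hdim : Module.finrank ℝ E' ≤ Module.finrank ℝ E)
    (h : C(M, M')) (hfg : ∀ x, h (f x) = g (h x)) (p : M) (hp : p ∈ Function.periodicPts f)
    (hfin : (h ⁻¹' {h p} ∩ {y | Asym f p y}).Finite ∨
      (h ⁻¹' {h p} ∩ {y | Asym f.symm p y}).Finite) :
    (∃ π : E' → M', IsCoveringMap π ∧ Function.Surjective π) ∧
      IsCoveringMap h ∧ Function.Surjective h ∧ (∀ y, (h ⁻¹' {y}).Finite) ∧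
      GPS g.toHomeomorph := by
  obtain ⟨k1, k2, k3, k4, -⟩ := man_exp_one_cover f Es Eu hf hG g.toHomeomorph
    (expansive_of_anosov g Es' Eu' hg) h h.continuous hfg hp hfin hdim
  exact ⟨(man_self g Es' Eu' hg k4).2, k1, k2, k3, k4⟩

end Pool.Agent.Results.MP_0a0487_an.FiniteFibreFactorCovered
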