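import Pool.Agent.TH289.HomMain

set_option autoImplicit false

open scoped Manifold ContDiff Topology
open Set Filter

namespace Pool.Agent.Results.MP_0a0487_an.SeparatingFactorCovered

open Pool.Agent.H721R2 Pool.Agent.H789R2.AN Pool.Agent.TH289

/-- **Anosov diffeomorphisms with a separating factor that lives on a manifold covered by Euclidean
space.**
Let `f` be a `C¹` Anosov diffeomorphism of a closed connected manifold `M`, modelled on `E`, and `g`
a topologically transitive `C¹` Anosov diffeomorphism of a closed manifold `M'` with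
`dim M' ≤ dim M` that is covered by Euclidean space (for instance a hyperbolic infranilmanifold
automorphism).  Let `h : M → M'` be continuous with `h ∘ f = g ∘ h`, and suppose that `h` takes
different values at different homoclinically related periodic points of `f`.  Then `M` is covered
by Euclidean space: there is a surjective covering map `E → M`. -/
theorem result (E : Type*) [NormedAddCommGroup E] [NormedSpace ℝ E] [FiniteDimensional ℝ E]
    (M : Type*) [TopologicalSpace M] [T2Space M] [CompactSpace M] [ConnectedSpace M]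
    [ChartedSpace E M] [IsManifold 𝓘(ℝ, E) ∞ M] (f : Diffeomorph 𝓘(ℝ, E) 𝓘(ℝ, E) M M 1)
    (Es Eu : ∀ x : M, Submodule ℝ (TangentSpace 𝓘(ℝ, E) x)) (hf : IsAnosov f Es Eu)
    (s u : ℕ) (hs : ∀ x, Module.finrank ℝ (Es x) = s) (hu : ∀ x, Module.finrank ℝ (Eu x) = u)
    (E' : Type*) [NormedAddCommGroup E'] [NormedSpace ℝ E'] [FiniteDimensional ℝ E']
    (M' : Type*) [TopologicalSpace M'] [T2Space M'] [CompactSpace M']
    [ChartedSpace E' M'] [IsManifold 𝓘(ℝ, E') ∞ M'] (g : Diffeomorph 𝓘(ℝ, E') 𝓘(ℝ, E') M' M' 1)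
    (Es' Eu' : ∀ x : M', Submodule ℝ (TangentSpace 𝓘(ℝ, E') x)) (hg : IsAnosov g Es' Eu')
    (s' u' : ℕ) (hs' : ∀ x, Module.finrank ℝ (Es' x) = s')
    (hu' : ∀ x, Module.finrank ℝ (Eu' x) = u') (hgt : TopTransitive g)
    (hdim : Module.finrank ℝ E' ≤ Module.finrank ℝ E)
    (q' : E' → M') (hq' : IsCoveringMap q') (hqs' : Function.Surjective q')
    (h : C(M, M')) (hfg : ∀ x, h (f x) = g (h x)) (hsep : Separates f.toHomeomorph h univ) :
    ∃ q : E → M, IsCoveringMap q ∧ Function.Surjective q := by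
  have hn : (univ : Set M).Nonempty := univ_nonempty
  obtain ⟨-, h2, -, rfl, rfl⟩ := man_main f Es Eu hf hs hu g Es' Eu' hg hs' hu' hgt hdim h
    h.continuous hfg univ
      ⟨isClosed_univ, hn, fun _ => by simp, fun _ _ _ _ => mem_univ _⟩ hsep
      (Or.inr ⟨univ, ⟨isClosed_univ, hn, fun _ => by simp, fun _ _ _ _ => mem_univ _⟩,
        hsep⟩)
  have x₀ : M := Classical.arbitrary M
  have hd : s + u = Module.finrank ℝ E := by
    rw [← hs x₀, ← hu x₀]
    exact Submodule.finrank_add_eq_of_isCompl (K := ℝ) (V := E) (hf.isCompl x₀)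
  have hd' : s + u = Module.finrank ℝ E' := by
    rw [← hs' (h x₀), ← hu' (h x₀)]
    exact Submodule.finrank_add_eq_of_isCompl (K := ℝ) (V := E') (hg.isCompl (h x₀))
  let e : E ≃L[ℝ] E' := ContinuousLinearEquiv.ofFinrankEq (by rw [← hd, hd'])
  let k : M ≃ₜ M' := h2.homeomorph
  refine ⟨fun x => k.symm (q' (e x)), ?_, ?_⟩
  · exact (hq'.comp_homeomorph e.toHomeomorph).homeomorph_comp k.symm
  · exact k.symm.surjective.comp (hqs'.comp e.surjective)

end Pool.Agent.Results.MP_0a0487_an.SeparatingFactorCovered
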